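import Pool.Agent.R575.TN.Diag

/-! The diagonal colouring is computable. -/

namespace Pool.Agent.R575.TN

open Encodable Filter Pool.Agent.H645R2.HT Pool.Agent.Helper446 Pool.Agent.Helper446.RE
open Pool.Agent.TH747.HT hiding dl el c_dl c_el CC GG pick TT tst sel sh sk col c_tst c_TT c_pick c_sel c_col
open Pool.Agent.H19R3.DNC (el c_el)

variable {D : ℕ → ℕ → Bool}

section comp

variable {α : Type*} [Primcodable α]

theorem c_hx {p i : α → ℕ} (hp : Computable p) (hi : Computable i) :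
    Computable fun a => hx (p a) (i a) := by
  unfold hx
  have h := c_el hp hi
  fun_prop

theorem c_nn {r : α → ℕ} (hr : Computable r) : Computable fun a => nn (r a) := by
  unfold nn
  exact c_pow3 (by fun_prop)

theorem c_tsi (hD : Computable fun x : ℕ × ℕ => D x.1 x.2) {r l : α → ℕ} {T : α → List ℕ}
    {p i : α → ℕ} (hr : Computable r) (hl : Computable l) (hT : Computable T)
    (hp : Computable p) (hi : Computable i) :
    Computable fun a => tsi D (r a) (l a) (T a) (p a) (i a) := by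
  have e1 := c_el hp hi
  have e2 := c_hx hp hi
  have e3 : Computable fun a => hx (p a) (i a - 1) := c_hx hp (by fun_prop)
  have h1 : Computable fun a => D (Nat.pair (r a).unpair.1 (el (p a) (i a))) (l a) :=
    hD.comp (g := fun a => (Nat.pair (r a).unpair.1 (el (p a) (i a)), l a)) (by fun_prop)
  unfold tsi
  exact cand h1 (cand (c_dlt (by fun_prop) (by fun_prop)) (cand
    (c_dlt (by fun_prop) (by fun_prop)) (cand (cor (c_deq (by fun_prop) (by fun_prop))
      (c_dlt (by fun_prop) (by fun_prop))) (cnot (c_mem (by fun_prop) hT)))))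

theorem c_tst (hD : Computable fun x : ℕ × ℕ => D x.1 x.2) {r l : α → ℕ} {T : α → List ℕ}
    {p : α → ℕ} (hr : Computable r) (hl : Computable l) (hT : Computable T)
    (hp : Computable p) : Computable fun a => tst D (r a) (l a) (T a) (p a) := by
  unfold tst
  refine computable_allB (q := fun a i => tsi D (r a) (l a) (T a) (p a) i) ?_ (c_nn hr)
  exact c_tsi (α := α × ℕ) hD (r := fun x => r x.1) (l := fun x => l x.1) (T := fun x => T x.1)
    (p := fun x => p x.1) (i := fun x => x.2) (by fun_prop) (by fun_prop) (by fun_prop)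
    (by fun_prop) (by fun_prop)

theorem c_tops {p n : α → ℕ} (hp : Computable p) (hn : Computable n) :
    Computable fun a => tops (p a) (n a) := by
  have h : Computable fun a => Nat.rec (motive := fun _ => List ℕ) ([] : List ℕ)
      (fun i t => t ++ [mu (hx (p a) i)]) (n a) := by
    refine Computable.nat_rec (f := n) (g := fun _ : α => ([] : List ℕ))
      (h := fun (a : α) (y : ℕ × List ℕ) => y.2 ++ [mu (hx (p a) y.1)]) hn
      (Computable.const _) ?_
    have e : Computable fun x : α × (ℕ × List ℕ) => hx (p x.1) x.2.1 :=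
      c_hx (by fun_prop) (by fun_prop)
    exact (show Computable fun x : α × (ℕ × List ℕ) => x.2.2 ++ [mu (hx (p x.1) x.2.1)] from
      cappend (by fun_prop) (ccons (by fun_prop) (by fun_prop)))
  refine h.of_eq fun a => ?_
  generalize n a = m
  induction m with
  | zero => rfl
  | succ m ih =>
    unfold tops at *
    rw [List.range_succ, List.map_append, ← ih]
    rfl

theorem c_TT (hD : Computable fun x : ℕ × ℕ => D x.1 x.2) {l r : α → ℕ} (hl : Computable l)
    (hr : Computable r) : Computable fun a => TT D (l a) (r a) := by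
  have h1 : Computable fun x : α × (ℕ × List ℕ) =>
      lst (tst D x.2.1 (l x.1) x.2.2) (la (l x.1)) := by
    refine c_lst (q := fun (x : α × (ℕ × List ℕ)) c => tst D x.2.1 (l x.1) x.2.2 c) ?_
      (by fun_prop)
    exact c_tst hD (by fun_prop) (by fun_prop) (by fun_prop) (by fun_prop)
  have h2 : Computable fun x : α × (ℕ × List ℕ) =>
      tops (lst (tst D x.2.1 (l x.1) x.2.2) (la (l x.1))) (nn x.2.1) :=
    c_tops h1 (c_nn (by fun_prop))
  have h := Computable.nat_rec (f := r) (g := fun _ : α => ([] : List ℕ))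
    (h := fun (a : α) (y : ℕ × List ℕ) =>
      bif decide (lst (tst D y.1 (l a) y.2) (la (l a)) < la (l a)) then
      tops (lst (tst D y.1 (l a) y.2) (la (l a))) (nn y.1) ++ y.2 else y.2) hr
    (Computable.const _)
    (show Computable fun x : α × (ℕ × List ℕ) =>
      bif decide (lst (tst D x.2.1 (l x.1) x.2.2) (la (l x.1)) < la (l x.1)) then
      tops (lst (tst D x.2.1 (l x.1) x.2.2) (la (l x.1))) (nn x.2.1) ++ x.2.2 else x.2.2 from
      ccond (c_dlt h1 (by fun_prop)) (cappend h2 (by fun_prop)) (by fun_prop))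
  refine h.of_eq fun a => ?_
  generalize r a = n
  induction n with
  | zero => rfl
  | succ n ih => simp only [TT]; rw [← ih]

theorem c_pick (hD : Computable fun x : ℕ × ℕ => D x.1 x.2) {l r : α → ℕ} (hl : Computable l)
    (hr : Computable r) : Computable fun a => pick D (l a) (r a) := by
  unfold pick
  refine c_lst (q := fun (a : α) c => tst D (r a) (l a) (TT D (l a) (r a)) c) ?_ (by fun_prop)
  refine c_tst hD (by fun_prop) (by fun_prop) ?_ (by fun_prop)
  exact (c_TT hD hl hr).comp Computable.fst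

theorem c_ind {p n u : α → ℕ} (hp : Computable p) (hn : Computable n) (hu : Computable u) :
    Computable fun a => ind (p a) (n a) (u a) := by
  unfold ind
  refine c_lst (q := fun (a : α) i => decide (mu (hx (p a) i) = u a)) ?_ hn
  have e : Computable fun x : α × ℕ => hx (p x.1) x.2 := c_hx (by fun_prop) (by fun_prop)
  exact c_deq (by fun_prop) (by fun_prop)

theorem c_sel (hD : Computable fun x : ℕ × ℕ => D x.1 x.2) {u l : α → ℕ}
    (hu : Computable u) (hl : Computable l) : Computable fun a => sel D (u a) (l a) := by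
  unfold sel
  refine c_lst (q := fun (a : α) r => decide (pick D (l a) r < la (l a)) &&
    decide (ind (pick D (l a) r) (nn r) (u a) < nn r)) ?_ (by fun_prop)
  have h1 : Computable fun y : α × ℕ => pick D (l y.1) y.2 :=
    c_pick hD (hl.comp Computable.fst) Computable.snd
  have h2 : Computable fun y : α × ℕ => nn y.2 := c_nn Computable.snd
  have h3 : Computable fun y : α × ℕ => ind (pick D (l y.1) y.2) (nn y.2) (u y.1) :=
    c_ind h1 h2 (by fun_prop)
  exact cand (c_dlt (by fun_prop) (by fun_prop)) (c_dlt (by fun_prop) (by fun_prop))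

end comp

theorem c_vl {α : Type*} [Primcodable α] {f : α → ℕ} (hf : Computable f) :
    Computable fun a => vl (f a) := by
  unfold vl
  refine c_lst (q := fun (a : α) j => decide (0 < f a % 3 ^ (j + 1))) ?_ (by fun_prop)
  refine c_dlt (by fun_prop) ?_
  exact c_mod (by fun_prop) (c_pow3 (by fun_prop))

theorem c_CC (hD : Computable fun x : ℕ × ℕ => D x.1 x.2) :
    Computable fun x : ℕ × ℕ => CC D x.1 x.2 := by
  have hm : Computable fun y : ℕ × ℕ => y.2 % 3 ^ y.1 :=
    c_mod (by fun_prop) (c_pow3 (by fun_prop))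
  have htop : Computable fun y : ℕ × ℕ => y.2 - y.2 % 3 ^ y.1 := by fun_prop
  have hsel : Computable fun y : ℕ × ℕ => sel D (mu (y.2 % 3 ^ y.1)) (y.2 - y.2 % 3 ^ y.1) :=
    c_sel hD (by fun_prop) htop
  have hpick := c_pick hD htop hsel
  have hnn := c_nn hsel
  have hmu : Computable fun y : ℕ × ℕ => mu (y.2 % 3 ^ y.1) := by fun_prop
  have hsi : Computable fun y : ℕ × ℕ => si D (mu (y.2 % 3 ^ y.1)) (y.2 - y.2 % 3 ^ y.1) :=
    c_ind hpick hnn hmu
  have h0 : Computable fun y : ℕ × ℕ => sh D (mu (y.2 % 3 ^ y.1)) (y.2 - y.2 % 3 ^ y.1) := by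
    have e := c_hx hpick (Computable.const (0 : ℕ))
    unfold sh
    exact cadd e htop
  have h1 : Computable fun y : ℕ × ℕ => sk D (mu (y.2 % 3 ^ y.1)) (y.2 - y.2 % 3 ^ y.1) := by
    have e := c_hx hpick hsi
    unfold sk
    exact cadd e htop
  refine comp_rec3N (F := fun y : (ℕ × ℕ) × (ℕ × ℕ × ℕ) =>
      y.2.1 + bif act y.1.1 y.1.2 then
        (bif decide (sel D (mu (y.1.2 % 3 ^ y.1.1)) (y.1.2 - y.1.2 % 3 ^ y.1.1) <
          la (y.1.2 - y.1.2 % 3 ^ y.1.1)) then
          (y.2.2.1 + si D (mu (y.1.2 % 3 ^ y.1.1)) (y.1.2 - y.1.2 % 3 ^ y.1.1) +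
            (nn (sel D (mu (y.1.2 % 3 ^ y.1.1)) (y.1.2 - y.1.2 % 3 ^ y.1.1)) -
              y.2.2.2 % nn (sel D (mu (y.1.2 % 3 ^ y.1.1)) (y.1.2 - y.1.2 % 3 ^ y.1.1)))) %
            nn (sel D (mu (y.1.2 % 3 ^ y.1.1)) (y.1.2 - y.1.2 % 3 ^ y.1.1)) else 0) else 0)
    (A := fun v m => CC D v m) ?_ h0 h1 (fun m => rfl) (fun v m => rfl)
  have a1 : Computable fun y : (ℕ × ℕ) × (ℕ × ℕ × ℕ) => act y.1.1 y.1.2 := by
    unfold act
    refine cand (cdecide (RE.cp_eq (f := fun y : (ℕ × ℕ) × (ℕ × ℕ × ℕ) =>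
      dg y.1.1 y.1.2) (g := fun _ => 0) (by fun_prop) (by fun_prop)).not) ?_
    exact c_dlt (f := fun _ => 0) (g := fun y : (ℕ × ℕ) × (ℕ × ℕ × ℕ) =>
      y.1.2 % 3 ^ y.1.1) (by fun_prop) (hm.comp Computable.fst)
  have a2 : Computable fun y : (ℕ × ℕ) × (ℕ × ℕ × ℕ) =>
      decide (sel D (mu (y.1.2 % 3 ^ y.1.1)) (y.1.2 - y.1.2 % 3 ^ y.1.1) <
        la (y.1.2 - y.1.2 % 3 ^ y.1.1)) :=
    c_dlt (hsel.comp Computable.fst)
      ((c_la htop).comp (g := fun y : (ℕ × ℕ) × (ℕ × ℕ × ℕ) => y.1) Computable.fst)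
  have b1 : Computable fun y : (ℕ × ℕ) × (ℕ × ℕ × ℕ) =>
      nn (sel D (mu (y.1.2 % 3 ^ y.1.1)) (y.1.2 - y.1.2 % 3 ^ y.1.1)) :=
    hnn.comp (g := fun y : (ℕ × ℕ) × (ℕ × ℕ × ℕ) => y.1) Computable.fst
  have b2 : Computable fun y : (ℕ × ℕ) × (ℕ × ℕ × ℕ) =>
      si D (mu (y.1.2 % 3 ^ y.1.1)) (y.1.2 - y.1.2 % 3 ^ y.1.1) :=
    hsi.comp (g := fun y : (ℕ × ℕ) × (ℕ × ℕ × ℕ) => y.1) Computable.fst
  have b3 := c_mod (f := fun y : (ℕ × ℕ) × (ℕ × ℕ × ℕ) => y.2.2.2) (by fun_prop) b1
  refine cadd (by fun_prop) (ccond a1 (ccond a2 ?_ (by fun_prop)) (by fun_prop))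
  exact c_mod (cadd (cadd (by fun_prop) b2) (csub b1 b3)) b1

theorem c_col (hD : Computable fun x : ℕ × ℕ => D x.1 x.2) : Computable (col D) := by
  unfold col
  exact c_vl ((c_CC hD).comp (g := fun n : ℕ => (n, n)) (by fun_prop))

end Pool.Agent.R575.TN
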