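import Mathlib
import Pool.Agent.Helper446.Comp

/-! Computability of number valued functions defined by recursion with changing parameters. -/

namespace Pool.Agent.R575.TN

open Encodable Nat.Partrec Nat.Partrec.Code Pool.Agent.Helper446 Pool.Agent.Helper446.RE

/-- The value of a function `A v m` defined by recursion on `v` from `A v m`, `A v (p v m)`,
`A v (q v m)` is computable. -/
theorem comp_rec3N {F : (ℕ × ℕ) × (ℕ × ℕ × ℕ) → ℕ} (hF : Computable F)
    {p q : ℕ × ℕ → ℕ} (hp : Computable p) (hq : Computable q) {A : ℕ → ℕ → ℕ}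
    (h0 : ∀ m, A 0 m = 0)
    (hs : ∀ v m, A (v + 1) m = F ((v, m), (A v m, A v (p (v, m)), A v (q (v, m))))) :
    Computable (fun x : ℕ × ℕ => A x.1 x.2) := by
  let f : Code → ℕ →. ℕ := fun c z =>
    Nat.casesOn z.unpair.1 (Part.some 0) (fun v =>
      (eval c (Nat.pair v z.unpair.2)).bind fun a =>
        (eval c (Nat.pair v (p (v, z.unpair.2)))).bind fun b =>
          (eval c (Nat.pair v (q (v, z.unpair.2)))).map fun d =>
            F ((v, z.unpair.2), (a, b, d)))
  have hf : Partrec₂ f := by
    refine Partrec.nat_casesOn_right (f := fun x : Code × ℕ => x.2.unpair.1)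
      (g := fun _ => 0) (h := fun (x : Code × ℕ) (v : ℕ) =>
      (eval x.1 (Nat.pair v x.2.unpair.2)).bind fun a =>
        (eval x.1 (Nat.pair v (p (v, x.2.unpair.2)))).bind fun b =>
          (eval x.1 (Nat.pair v (q (v, x.2.unpair.2)))).map fun d =>
            F ((v, x.2.unpair.2), (a, b, d))) (by fun_prop) (by fun_prop) ?_
    have e1 : Partrec fun y : (Code × ℕ) × ℕ => eval y.1.1 (Nat.pair y.2 y.1.2.unpair.2) :=
      eval_part.comp (Computable.fst.comp Computable.fst) (by fun_prop)
    have e2 : Partrec fun y : ((Code × ℕ) × ℕ) × ℕ =>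
        eval y.1.1.1 (Nat.pair y.1.2 (p (y.1.2, y.1.1.2.unpair.2))) :=
      eval_part.comp (Computable.fst.comp (Computable.fst.comp Computable.fst))
        (by fun_prop)
    have e3 : Partrec fun y : (((Code × ℕ) × ℕ) × ℕ) × ℕ =>
        eval y.1.1.1.1 (Nat.pair y.1.1.2 (q (y.1.1.2, y.1.1.1.2.unpair.2))) :=
      eval_part.comp (Computable.fst.comp (Computable.fst.comp (Computable.fst.comp
        Computable.fst))) (by fun_prop)
    have e4 : Computable₂ fun (y : (((Code × ℕ) × ℕ) × ℕ) × ℕ) (d : ℕ) =>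
        F ((y.1.1.2, y.1.1.1.2.unpair.2), (y.1.2, y.2, d)) := by
      exact hF.comp (g := fun w : ((((Code × ℕ) × ℕ) × ℕ) × ℕ) × ℕ =>
        ((w.1.1.1.2, w.1.1.1.1.2.unpair.2), (w.1.1.2, w.1.2, w.2))) (by fun_prop)
    exact Partrec.bind e1 (Partrec.bind e2 (Partrec.map e3 e4))
  obtain ⟨c, hc⟩ := fixed_point₂ hf
  have key : ∀ v m, eval c (Nat.pair v m) = Part.some (A v m) := by
    intro v
    induction v with
    | zero =>
      intro m
      rw [hc]
      simp only [f, Nat.unpair_pair]
      rw [h0]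
      rfl
    | succ v ih =>
      intro m
      rw [hc]
      simp only [f, Nat.unpair_pair]
      rw [ih, ih, ih, hs]
      simp only [Part.bind_some, Part.map_some]
  have h1 : Partrec fun x : ℕ × ℕ => eval c (Nat.pair x.1 x.2) :=
    eval_part.comp (Computable.const c) (by fun_prop)
  exact h1.of_eq fun x => key x.1 x.2

end Pool.Agent.R575.TN
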