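import Pool.Agent.TH747.HS.DiagK
import Pool.Agent.H19R3.DNC
import Pool.Agent.R575.TN.Rec

/-! A diagonal colouring with infinitely many colours: given decisions `D` of facts, a computable
function `CC` such that, for suitable lists of `3 ^ K` elements `h`, the values of `CC` at the
sums `h + l` represent all residues modulo `3 ^ K`. -/

namespace Pool.Agent.R575.TN

open Encodable Filter Pool.Agent.H645R2.HT Pool.Agent.Helper446 Pool.Agent.Helper446.RE
open Pool.Agent.TH747.HT hiding dl el c_dl c_el CC GG pick TT tst sel sh sk col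
open Pool.Agent.H19R3.DNC (el c_el)

/-- The number of elements used by requirement `r`. -/
def nn (r : ℕ) : ℕ := 3 ^ r.unpair.2

/-- The element `i` of the candidate `p`. -/
def hx (p i : ℕ) : ℕ := (el p i).unpair.1

/-- The test for the element `i` of the candidate `p`. -/
def tsi (D : ℕ → ℕ → Bool) (r l : ℕ) (T : List ℕ) (p i : ℕ) : Bool :=
  D (Nat.pair r.unpair.1 (el p i)) l && (decide (0 < hx p i) && (decide (mu (hx p i) < la l) &&
    ((decide (i = 0) || decide (mu (hx p (i - 1)) < la (hx p i))) &&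
      !(decide (mu (hx p i) ∈ T)))))

/-- The test for the candidate `p`. -/
def tst (D : ℕ → ℕ → Bool) (r l : ℕ) (T : List ℕ) (p : ℕ) : Bool :=
  allB (tsi D r l T p) (nn r)

variable {D : ℕ → ℕ → Bool}

theorem tst_iff {r l : ℕ} {T : List ℕ} {p : ℕ} : tst D r l T p = true ↔ ∀ i < nn r,
    D (Nat.pair r.unpair.1 (el p i)) l = true ∧ 0 < hx p i ∧ mu (hx p i) < la l ∧
    (i = 0 ∨ mu (hx p (i - 1)) < la (hx p i)) ∧ mu (hx p i) ∉ T := by
  unfold tst
  rw [allB_iff]
  refine forall_congr' fun i => forall_congr' fun _ => ?_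
  unfold tsi
  simp only [Bool.and_eq_true, decide_eq_true_eq, Bool.not_eq_true', decide_eq_false_iff_not,
    Bool.or_eq_true]

/-- The top positions of a candidate. -/
def tops (p n : ℕ) : List ℕ := (List.range n).map (fun i => mu (hx p i))

theorem mem_tops {p n u : ℕ} : u ∈ tops p n ↔ ∃ i < n, mu (hx p i) = u := by
  unfold tops
  rw [List.mem_map]
  simp only [List.mem_range]

/-- The positions taken by the requirements `< r`. -/
def TT (D : ℕ → ℕ → Bool) (l : ℕ) : ℕ → List ℕ
  | 0 => []
  | r + 1 => bif decide (lst (tst D r l (TT D l r)) (la l) < la l) then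
      tops (lst (tst D r l (TT D l r)) (la l)) (nn r) ++ TT D l r else TT D l r

/-- The candidate used by requirement `r`. -/
def pick (D : ℕ → ℕ → Bool) (l r : ℕ) : ℕ := lst (tst D r l (TT D l r)) (la l)

theorem TT_succ {l r : ℕ} : TT D l (r + 1) = bif decide (pick D l r < la l) then
    tops (pick D l r) (nn r) ++ TT D l r else TT D l r := rfl

theorem nn_le (r : ℕ) : nn r ≤ 3 ^ r := Nat.pow_le_pow_right (by norm_num) (Nat.unpair_right_le r)

theorem TT_length {l r : ℕ} : (TT D l r).length ≤ r * 3 ^ r := by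
  induction r with
  | zero => simp [TT]
  | succ r ih =>
    have h1 := nn_le r
    have h2 : (r + 1) * 3 ^ (r + 1) = 3 * (r * 3 ^ r) + 3 * 3 ^ r := by ring
    rw [TT_succ]
    cases decide (pick D l r < la l)
    · simp only [cond_false]; omega
    · simp only [cond_true, List.length_append, tops, List.length_map, List.length_range]
      omega

theorem TT_mono {l r x : ℕ} (h : x ∈ TT D l r) : x ∈ TT D l (r + 1) := by
  rw [TT_succ]
  cases decide (pick D l r < la l)
  · exact h
  · exact List.mem_append_right _ h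

theorem TT_mono' {l r r' x : ℕ} (hee : r ≤ r') (h : x ∈ TT D l r) : x ∈ TT D l r' := by
  induction hee with
  | refl => exact h
  | step _ ih => exact TT_mono ih

theorem mem_TT_succ {l r i : ℕ} (h : pick D l r < la l) (hi : i < nn r) :
    mu (hx (pick D l r) i) ∈ TT D l (r + 1) := by
  rw [TT_succ, decide_eq_true h, cond_true]
  exact List.mem_append_left _ (mem_tops.2 ⟨i, hi, rfl⟩)

theorem pick_tst {l r : ℕ} (h : pick D l r < la l) :
    tst D r l (TT D l r) (pick D l r) = true := lst_of_lt h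

theorem pick_inj {l r r' i i' : ℕ} (h : pick D l r < la l) (h' : pick D l r' < la l)
    (hi : i < nn r) (hi' : i' < nn r')
    (he : mu (hx (pick D l r) i) = mu (hx (pick D l r') i')) : r = r' := by
  rcases Nat.lt_trichotomy r r' with h1 | h1 | h1
  · have h2 := TT_mono' (show r + 1 ≤ r' from h1) (mem_TT_succ h hi)
    rw [he] at h2
    exact absurd h2 (tst_iff.1 (pick_tst h') i' hi').2.2.2.2
  · exact h1
  · have h2 := TT_mono' (show r' + 1 ≤ r from h1) (mem_TT_succ h' hi')
    rw [← he] at h2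
    exact absurd h2 (tst_iff.1 (pick_tst h) i hi).2.2.2.2

theorem pick_lt {l r : ℕ} (h : pick D l r < la l) : ∀ j, ∀ i, i < j → j < nn r →
    mu (hx (pick D l r) i) < mu (hx (pick D l r) j) := by
  have h1 := tst_iff.1 (pick_tst h)
  intro j
  induction j with
  | zero => intro i hi; omega
  | succ j ih =>
    intro i hi hj
    have h2 := h1 (j + 1) hj
    have h3 : mu (hx (pick D l r) j) < la (hx (pick D l r) (j + 1)) := by
      rcases h2.2.2.2.1 with h4 | h4
      · omega
      · simpa using h4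
    have h4 := la_le_mu h2.2.1
    rcases Nat.lt_succ_iff_lt_or_eq.1 hi with h5 | h5
    · have := ih i h5 (by omega)
      omega
    · rw [h5]; omega

theorem pick_inj' {l r i i' : ℕ} (h : pick D l r < la l) (hi : i < nn r) (hi' : i' < nn r)
    (he : mu (hx (pick D l r) i) = mu (hx (pick D l r) i')) : i = i' := by
  rcases Nat.lt_trichotomy i i' with h1 | h1 | h1
  · have := pick_lt h i' i h1 hi'; omega
  · exact h1
  · have := pick_lt h i i' h1 hi; omega

/-- The index of the element of candidate `p` with top position `u`. -/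
def ind (p n u : ℕ) : ℕ := lst (fun i => decide (mu (hx p i) = u)) n

/-- The requirement acting at `(u, l)`. -/
def sel (D : ℕ → ℕ → Bool) (u l : ℕ) : ℕ :=
  lst (fun r => decide (pick D l r < la l) &&
    decide (ind (pick D l r) (nn r) u < nn r)) (la l)

theorem ind_lt {p n u : ℕ} (h : ind p n u < n) : mu (hx p (ind p n u)) = u := by
  have := lst_of_lt (q := fun i => decide (mu (hx p i) = u)) h
  exact of_decide_eq_true this

theorem sel_eq {l r i : ℕ} (hr : r < la l) (h : pick D l r < la l) (hi : i < nn r) :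
    sel D (mu (hx (pick D l r) i)) l = r ∧
      ind (pick D l r) (nn r) (mu (hx (pick D l r) i)) = i := by
  have h0 : ind (pick D l r) (nn r) (mu (hx (pick D l r) i)) < nn r := by
    have := lst_lt_of (q := fun j => decide (mu (hx (pick D l r) j) =
      mu (hx (pick D l r) i))) (n := nn r) (i := i) hi (decide_eq_true rfl)
    exact this.2.1
  have h1 := lst_lt_of (q := fun r' => decide (pick D l r' < la l) &&
    decide (ind (pick D l r') (nn r') (mu (hx (pick D l r) i)) < nn r')) (n := la l)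
    (i := r) hr (by rw [Bool.and_eq_true, decide_eq_true_eq, decide_eq_true_eq]; exact ⟨h, h0⟩)
  have h2 := h1.2.2
  rw [Bool.and_eq_true, decide_eq_true_eq, decide_eq_true_eq] at h2
  refine ⟨?_, pick_inj' h h0 hi (ind_lt h0)⟩
  exact pick_inj h2.1 h h2.2 hi (ind_lt h2.2)

/-- The first sum used at `(u, l)`. -/
def sh (D : ℕ → ℕ → Bool) (u l : ℕ) : ℕ := hx (pick D l (sel D u l)) 0 + l

/-- The index used at `(u, l)`. -/
def si (D : ℕ → ℕ → Bool) (u l : ℕ) : ℕ :=
  ind (pick D l (sel D u l)) (nn (sel D u l)) u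

/-- The second sum used at `(u, l)`. -/
def sk (D : ℕ → ℕ → Bool) (u l : ℕ) : ℕ := hx (pick D l (sel D u l)) (si D u l) + l

/-- The number `g < m` with `b + g ≡ a + i` modulo `m`. -/
def fx (m a i b : ℕ) : ℕ := (a + i + (m - b % m)) % m

theorem fx_spec {m a i b : ℕ} (hm : 0 < m) : b + fx m a i b ≡ a + i [MOD m] := by
  unfold fx
  have h1 : b % m < m := Nat.mod_lt _ hm
  have h2 : b + (a + i + (m - b % m)) % m ≡ b + (a + i + (m - b % m)) [MOD m] :=
    Nat.ModEq.add_left _ (Nat.mod_modEq _ _)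
  have h3 : b + (a + i + (m - b % m)) = a + i + (b / m + 1) * m := by
    have h4 := Nat.mod_add_div b m
    have h5 : (b / m + 1) * m = m * (b / m) + m := by ring
    omega
  rw [h3] at h2
  refine h2.trans ?_
  unfold Nat.ModEq
  rw [Nat.add_mul_mod_self_right]

/-- The value at `(u, l)`. -/
def GG (D : ℕ → ℕ → Bool) (cc : ℕ → ℕ) (u l : ℕ) : ℕ :=
  bif decide (sel D u l < la l) then
    fx (nn (sel D u l)) (cc (sh D u l)) (si D u l) (cc (sk D u l)) else 0

/-- The value of `n`, restricted to the positions below `v`. -/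
def CC (D : ℕ → ℕ → Bool) : ℕ → ℕ → ℕ
  | 0, _ => 0
  | v + 1, n => CC D v n + bif act v n then GG D (CC D v) (mu (n % 3 ^ v)) (n - n % 3 ^ v) else 0

theorem CC_succ {v n : ℕ} : CC D (v + 1) n = CC D v n + bif act v n then
      GG D (CC D v) (mu (n % 3 ^ v)) (n - n % 3 ^ v) else 0 := rfl

theorem CC_stable {n V : ℕ} (h : n ≤ V) : CC D V n = CC D n n := by
  induction h with
  | refl => rfl
  | @step m hm ih =>
    rw [CC_succ, ih]
    have h1 : dg m n = 0 := by
      by_contra hc
      have := dg_lt hc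
      have h2 : n ≤ m := hm
      omega
    simp [act, h1]

theorem act_add {w l v : ℕ} (hl : 0 < l) (h : Sep w l) (hv : la l < v) :
    act v (w + l) = act v l := by
  unfold act
  rw [add_mod_high hl h hv]
  have h6 : dg v (w + l) = dg v l := by
    unfold Pool.Agent.H645R2.HT.Sep at h
    have h7 : 3 ^ la l ∣ l := dvd_of_dg fun i hi => dg_of_lt_la hi
    have h8 : w < 3 ^ la l := lt_of_dg fun i hi => dg_of_mu_lt (by omega)
    obtain ⟨q, hq⟩ := h7
    have h9 := dg_add_high (q := q) h8 hv.le
    rw [← hq] at h9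
    exact h9
  have h1 := mod_pos hl hv
  rw [h6, decide_eq_true h1, decide_eq_true (show 0 < w + l % 3 ^ v by omega)]

theorem term_high {w l v : ℕ} (hl : 0 < l) (h : Sep w l) (hv : la l < v) (cc : ℕ → ℕ) :
    (bif act v (w + l) then GG D cc (mu ((w + l) % 3 ^ v)) ((w + l) - (w + l) % 3 ^ v) else 0) =
    (bif act v l then GG D cc (mu (l % 3 ^ v)) (l - l % 3 ^ v) else 0) := by
  have h1 := mod_pos hl hv
  have h2 := la_mod hl hv
  have h3 : Sep w (l % 3 ^ v) := by
    unfold Pool.Agent.H645R2.HT.Sep at *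
    omega
  rw [act_add hl h hv, add_mod_high hl h hv, mu_add h1 h3]
  have h4 : w + l - (w + l % 3 ^ v) = l - l % 3 ^ v := by omega
  rw [h4]

theorem CC_cong {w w' l V : ℕ} (hl : 0 < l) (h : Sep w l) (h' : Sep w' l)
    (hV : la l + 1 ≤ V) :
    CC D V (w + l) + CC D (la l + 1) (w' + l) = CC D V (w' + l) + CC D (la l + 1) (w + l) := by
  induction hV with
  | refl => exact Nat.add_comm _ _
  | @step v hv ih =>
    rw [CC_succ (v := v) (n := w + l), CC_succ (v := v) (n := w' + l), term_high hl h hv,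
      term_high hl h' hv]
    omega

theorem CC_at {w l : ℕ} (hw : 0 < w) (hl : 0 < l) (h : Sep w l) :
    CC D (la l + 1) (w + l) = CC D (la l) (w + l) + GG D (CC D (la l)) (mu w) l := by
  rw [CC_succ, add_mod_la hl h]
  have h1 : w + l - w = l := by omega
  rw [h1]
  have h2 : act (la l) (w + l) = true := by
    unfold act
    rw [add_mod_la hl h]
    have h6 : dg (la l) (w + l) = dg (la l) l := by
      unfold Pool.Agent.H645R2.HT.Sep at h
      have h7 : 3 ^ la l ∣ l := dvd_of_dg fun i hi => dg_of_lt_la hi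
      have h8 : w < 3 ^ la l := lt_of_dg fun i hi => dg_of_mu_lt (by omega)
      obtain ⟨q, hq⟩ := h7
      have h9 := dg_add_high (q := q) h8 le_rfl
      rw [← hq] at h9
      exact h9
    rw [h6, decide_eq_true hw, decide_eq_true (mem_L.1 (la_mem hl))]
    rfl
  rw [h2, cond_true]

/-- The values at the sums of a picked candidate. -/
theorem CC_pick {l r i : ℕ} (hl : 0 < l) (hr : r < la l) (h : pick D l r < la l)
    (hi : i < nn r) :
    CC D (hx (pick D l r) i + l) (hx (pick D l r) i + l) ≡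
      CC D (hx (pick D l r) 0 + l) (hx (pick D l r) 0 + l) + i [MOD nn r] := by
  have hn : 0 < nn r := by unfold nn; positivity
  have key : ∀ j < nn r, GG D (CC D (la l)) (mu (hx (pick D l r) j)) l =
      fx (nn r) (CC D (la l) (hx (pick D l r) 0 + l)) j
        (CC D (la l) (hx (pick D l r) j + l)) := by
    intro j hj
    obtain ⟨h1, h2⟩ := sel_eq hr h hj
    unfold GG sh sk si
    rw [h1, h2, decide_eq_true hr, cond_true]
  have ht := tst_iff.1 (pick_tst h)
  have p0 := ht 0 hn
  have p1 := ht i hi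
  have k0 := key 0 hn
  have k1 := key i hi
  generalize pick D l r = p at *
  have s0 : Sep (hx p 0) l := p0.2.2.1
  have s1 : Sep (hx p i) l := p1.2.2.1
  have hlal : la l < l := dg_lt (mem_L.1 (la_mem hl))
  have c0 : CC D (hx p 0 + l + hx p i) (hx p 0 + l) = CC D (hx p 0 + l) (hx p 0 + l) :=
    CC_stable (by omega)
  have c1 : CC D (hx p 0 + l + hx p i) (hx p i + l) = CC D (hx p i + l) (hx p i + l) :=
    CC_stable (by omega)
  have c2 := CC_cong (D := D) (V := hx p 0 + l + hx p i) hl s1 s0 (by omega)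
  rw [c0, c1, CC_at p0.2.1 hl s0, CC_at p1.2.1 hl s1, k0, k1] at c2
  have f0 := fx_spec (m := nn r) (a := CC D (la l) (hx p 0 + l)) (i := 0)
    (b := CC D (la l) (hx p 0 + l)) hn
  have f1 := fx_spec (m := nn r) (a := CC D (la l) (hx p 0 + l)) (i := i)
    (b := CC D (la l) (hx p i + l)) hn
  generalize CC D (la l) (hx p 0 + l) = x at *
  generalize CC D (la l) (hx p i + l) = y at *
  have g1 : CC D (hx p i + l) (hx p i + l) + (x + 0) ≡
      CC D (hx p 0 + l) (hx p 0 + l) + (x + i) [MOD nn r] := by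
    have g2 : CC D (hx p i + l) (hx p i + l) + (x + fx (nn r) x 0 x) ≡
        CC D (hx p i + l) (hx p i + l) + (x + 0) [MOD nn r] := Nat.ModEq.add_left _ f0
    have g3 : CC D (hx p 0 + l) (hx p 0 + l) + (y + fx (nn r) x i y) ≡
        CC D (hx p 0 + l) (hx p 0 + l) + (x + i) [MOD nn r] := Nat.ModEq.add_left _ f1
    rw [c2] at g2
    exact g2.symm.trans g3
  have g4 : CC D (hx p i + l) (hx p i + l) + x ≡
      (CC D (hx p 0 + l) (hx p 0 + l) + i) + x [MOD nn r] := by
    have e1 : CC D (hx p 0 + l) (hx p 0 + l) + (x + i) =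
      (CC D (hx p 0 + l) (hx p 0 + l) + i) + x := by omega
    rw [e1, Nat.add_zero] at g1
    exact g1
  exact Nat.ModEq.add_right_cancel' x g4

/-- The number of final zeros of the ternary expansion. -/
def vl (s : ℕ) : ℕ := lst (fun j => decide (0 < s % 3 ^ (j + 1))) (s + 1)

theorem vl_eq {s j K : ℕ} (hj : j < K) (h : s ≡ 3 ^ j [MOD 3 ^ K]) : vl s = j := by
  have key : ∀ i, i < K → s % 3 ^ (i + 1) = 3 ^ j % 3 ^ (i + 1) := by
    intro i hi
    exact (h.of_dvd (Nat.pow_dvd_pow 3 hi))
  have h1 : 0 < s % 3 ^ (j + 1) := by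
    rw [key j hj, Nat.mod_eq_of_lt (Nat.pow_lt_pow_right (by norm_num) (Nat.lt_succ_self j))]
    positivity
  have h2 : j < s + 1 := by
    have h3 : s % 3 ^ K = 3 ^ j := by
      have := h
      unfold Nat.ModEq at this
      rw [this, Nat.mod_eq_of_lt (Nat.pow_lt_pow_right (by norm_num) hj)]
    have h4 : s % 3 ^ K ≤ s := Nat.mod_le _ _
    have h5 : j < 3 ^ j := Nat.lt_pow_self (by norm_num)
    omega
  obtain ⟨h3, h4, h5⟩ := lst_lt_of (q := fun j => decide (0 < s % 3 ^ (j + 1))) (n := s + 1)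
    (i := j) h2 (decide_eq_true h1)
  change vl s ≤ j at h3
  refine le_antisymm h3 ?_
  by_contra hc
  push Not at hc
  have h6 : 0 < s % 3 ^ (vl s + 1) := of_decide_eq_true h5
  rw [key (vl s) (by omega)] at h6
  have h7 : 3 ^ (vl s + 1) ∣ 3 ^ j := Nat.pow_dvd_pow 3 hc
  rw [Nat.mod_eq_zero_of_dvd h7] at h6
  exact lt_irrefl _ h6

/-- The colouring. -/
def col (D : ℕ → ℕ → Bool) (n : ℕ) : ℕ := vl (CC D n n)

/-- A picked candidate gives all small colours. -/
theorem col_hits {l r j : ℕ} (hl : 0 < l) (hr : r < la l) (h : pick D l r < la l)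
    (hj : j < r.unpair.2) : ∃ i < nn r, col D (hx (pick D l r) i + l) = j := by
  have hn : 0 < nn r := by unfold nn; positivity
  refine ⟨fx (nn r) (3 ^ j) 0 (CC D (hx (pick D l r) 0 + l) (hx (pick D l r) 0 + l)),
    Nat.mod_lt _ hn, ?_⟩
  set i := fx (nn r) (3 ^ j) 0 (CC D (hx (pick D l r) 0 + l) (hx (pick D l r) 0 + l)) with hi
  have hi' : i < nn r := Nat.mod_lt _ hn
  have h1 := CC_pick hl hr h hi'
  have h2 := fx_spec (m := nn r) (a := 3 ^ j) (i := 0)
    (b := CC D (hx (pick D l r) 0 + l) (hx (pick D l r) 0 + l)) hn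
  rw [← hi, Nat.add_zero] at h2
  exact vl_eq hj (h1.trans h2)

end Pool.Agent.R575.TN
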