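import Pool.Agent.R575.TN.Main
import Pool.Agent.TH747.HS.DncK
import Pool.Agent.TH747.HS.FS

/-! Thin solutions compute a function which is diagonally noncomputable relative to `0'''`, and
they are not `Σ⁰₄`. -/

namespace Pool.Agent.R575.TN

open Encodable Filter Pool.Agent.H645R2.HT Pool.Agent.Helper446 Pool.Agent.Helper446.RE
  Pool.Agent.Helper446.Oracle
open Pool.Agent.TH747.HS (FarU Sm D3k limDec c_D3k Sig4 Psi_W0 exists_index exists_good re_good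
  re_not_good Sm_mono Sm_mem Sm_idem exists_farU FS)
open Pool.Agent.TH747.HT (Psi ix)
open Pool.Agent.H19R3.DNC (idx c_idx idx_iff dl el c_dl c_el Good)

variable {A Y : Set ℕ}

/-- Solutions compute, for every `Σ⁰₄` relation, a function avoiding all single-valued
sections. -/
theorem dnc {k : ℕ} (hk : 3 ≤ k) {V : Ultrafilter ℕ} (hV : FarU V) (hp : 0 ∉ Y)
    (hY : ∀ N, ∃ x ∈ Y, 3 ^ N ∣ x)
    (hc : ∃ j, ∀ h ∈ Y, Sm V k (fun l => col (D3k W0 k) (h + l) ≠ j))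
    (r1 : REIn A fun n : ℕ => n ∈ Y) (r2 : REIn A fun n : ℕ => n ∉ Y)
    {R : ℕ → ℕ → ℕ → ℕ → ℕ → ℕ → Bool}
    (hR : Computable fun x : ℕ × ℕ × ℕ × ℕ × ℕ × ℕ =>
      R x.1 x.2.1 x.2.2.1 x.2.2.2.1 x.2.2.2.2.1 x.2.2.2.2.2) :
    ∃ f : ℕ → ℕ, REIn A (fun x : ℕ × ℕ => f x.1 = x.2) ∧
      ∀ q, ¬ ∀ m, Sig4 R q m ↔ m = f q := by
  classical
  obtain ⟨j, hc⟩ := hc
  obtain ⟨e, he⟩ := exists_index hR
  have hex : ∀ q, ∃ m, Good Y (ln (Nat.pair (idx e q) (j + 1))) m :=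
    fun q => exists_good hp hY _
  have hidx : ∀ {β : Type} [Primcodable β] {f : β → ℕ}, Computable f →
      Computable fun b => ln (Nat.pair (idx e (f b)) (j + 1)) := by
    intro β _ f hf
    have h1 := c_idx e hf
    have h2 : Computable fun b => Nat.pair (idx e (f b)) (j + 1) := by fun_prop
    have h3 := Pool.Agent.TH747.HT.c_pow3 h2
    unfold ln
    fun_prop
  refine ⟨fun q => Nat.find (hex q), ?_, ?_⟩
  · have h1 : REIn A fun x : ℕ × ℕ => Good Y (ln (Nat.pair (idx e x.1) (j + 1))) x.2 ∧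
        ∀ i < x.2, ¬ Good Y (ln (Nat.pair (idx e x.1) (j + 1))) i := by
      refine REIn.and (re_good r1 (hidx (by fun_prop)) (by fun_prop)) ?_
      refine REIn.all_lt (S := fun (x : ℕ × ℕ) i =>
        ¬ Good Y (ln (Nat.pair (idx e x.1) (j + 1))) i) ?_ (by fun_prop)
      exact re_not_good r2 (N := fun x : (ℕ × ℕ) × ℕ => ln (Nat.pair (idx e x.1.1) (j + 1)))
        (m := fun x : (ℕ × ℕ) × ℕ => x.2) (hidx (by fun_prop)) (by fun_prop)
    refine h1.of_eq fun x => ?_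
    constructor
    · rintro ⟨h2, h3⟩
      exact (Nat.find_eq_iff _).2 ⟨h2, h3⟩
    · intro h2
      exact (Nat.find_eq_iff _).1 h2
  · intro q hq
    obtain ⟨h1, h2, h3⟩ := Nat.find_spec (hex q)
    dsimp only at hq
    generalize Nat.find (hex q) = m at *
    have hmem : ∀ n, (∃ a, Psi W0 (Nat.pair (idx e q) (Nat.pair n a))) ↔ n ∈ dl m := by
      intro n
      rw [he q n]
      constructor
      · rintro ⟨m', hm', hn⟩
        rw [(hq m').1 hm'] at hn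
        exact hn
      · intro hn
        exact ⟨m, (hq m).2 rfl, hn⟩
    have hel : ∀ i < ln (Nat.pair (idx e q) (j + 1)) + 2, el m i ∈ dl m := by
      intro i hi
      unfold el
      rw [List.getElem?_eq_getElem (by omega)]
      exact List.getElem_mem _
    refine no_chain (k := k) (by omega) hV (limDec mon_W0 hV hk) hp hc (e := idx e q) rfl ?_
      (el m) ?_ ?_
    · intro n hn
      obtain ⟨i, hi, rfl⟩ := List.getElem_of_mem ((hmem n).1 hn)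
      have h4 := h2 i (by omega)
      unfold el at h4
      rwa [List.getElem?_eq_getElem hi] at h4
    · intro i hi
      exact (hmem _).2 (hel i (by omega))
    · intro i hi
      exact h3 i (by omega)

/-- Thin solutions are not `Σ⁰₄`. -/
theorem no_sigma4 {k : ℕ} (hk : 3 ≤ k) {V : Ultrafilter ℕ} (hV : FarU V) (hp : 0 ∉ Y)
    (hY : ∀ N, ∃ x ∈ Y, 3 ^ N ∣ x)
    (hc : ∃ j, ∀ h ∈ Y, Sm V k (fun l => col (D3k W0 k) (h + l) ≠ j))
    {R : ℕ → ℕ → ℕ → ℕ → ℕ → Bool}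
    (hR : Computable fun x : ℕ × ℕ × ℕ × ℕ × ℕ =>
      R x.1 x.2.1 x.2.2.1 x.2.2.2.1 x.2.2.2.2) :
    Y ≠ {n | ∃ a, ∀ b, ∃ t, ∀ u, R n a b t u = true} := by
  intro hYR
  have h1 : REPred fun w : ℕ => ∃ u, R w.unpair.1.unpair.1 w.unpair.1.unpair.2
      w.unpair.2.unpair.1 w.unpair.2.unpair.2 u = false := by
    refine RE.exN (p := fun (w : ℕ) u => R w.unpair.1.unpair.1 w.unpair.1.unpair.2
      w.unpair.2.unpair.1 w.unpair.2.unpair.2 u = false) ?_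
    refine RE.eq ?_ (by fun_prop)
    exact hR.comp (g := fun x : ℕ × ℕ => (x.1.unpair.1.unpair.1,
      x.1.unpair.1.unpair.2, x.1.unpair.2.unpair.1, x.1.unpair.2.unpair.2, x.2)) (by fun_prop)
  obtain ⟨e, he⟩ := univ_W0 h1
  refine no_solution (k := k) (by omega) hV (limDec mon_W0 hV hk) hp hY hc e fun n => ?_
  have h2 : n ∈ Y ↔ ∃ a, ∀ b, ∃ t, ∀ u, R n a b t u = true := by rw [hYR]; rfl
  rw [h2]
  refine exists_congr fun a => ?_
  rw [Psi_W0]
  refine forall_congr' fun b => exists_congr fun c => ?_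
  unfold ix
  simp only [Nat.unpair_pair]
  rw [← he]
  simp only [Nat.unpair_pair]
  push Not
  refine forall_congr' fun u => ?_
  simp

variable {X : Set ℕ}

/-- The set of all finite sums of an infinite set omits a colour. -/
theorem hyp_FS {c : ℕ → ℕ} (hX : X.Infinite) (h0 : 0 ∉ X)
    (hc : ∃ i, ∀ F : Finset ℕ, (F : Set ℕ) ⊆ X → F.Nonempty → c (∑ n ∈ F, n) ≠ i)
    {k : ℕ} (hk : 0 < k) :
    ∃ V : Ultrafilter ℕ, FarU V ∧ (∀ N, ∃ x ∈ FS X, 3 ^ N ∣ x) ∧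
      ∃ i, ∀ h ∈ FS X, Sm V k (fun l => c (h + l) ≠ i) := by
  obtain ⟨U, hU, hUX⟩ := Pool.Agent.TH747.HT.exists_idem hX
    (fun x hx => Nat.pos_of_ne_zero fun h => h0 (h ▸ hx))
  refine ⟨U, Pool.Agent.TH747.HS.farU_idem hU, fun N => ?_, ?_⟩
  · obtain ⟨n, ⟨G, g1, g2, -, rfl⟩, hn⟩ := ((hUX ∅).and (hU.dvd (N := 3 ^ N) (by positivity))).exists
    exact ⟨_, ⟨G, g1, g2, rfl⟩, hn⟩
  · obtain ⟨i, hi⟩ := hc
    refine ⟨i, ?_⟩
    rintro h ⟨F, f1, f2, rfl⟩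
    rw [Sm_idem hU hk]
    filter_upwards [hUX F] with l hl
    obtain ⟨G, g1, g2, g3, rfl⟩ := hl
    rw [← Finset.sum_union g3]
    refine hi _ ?_ (f1.mono Finset.subset_union_left)
    rw [Finset.coe_union]
    exact Set.union_subset f2 g2

/-- Sums of exactly `k + 1` elements omit a colour. -/
theorem hyp_eq {c : ℕ → ℕ} (h0 : 0 ∉ X) (hX : ∀ N, ∃ x ∈ X, 3 ^ N ∣ x) {k : ℕ}
    (hc : ∃ i, ∀ F : Finset ℕ, (F : Set ℕ) ⊆ X → F.card = k + 1 → c (∑ n ∈ F, n) ≠ i) :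
    ∃ V : Ultrafilter ℕ, FarU V ∧ ∃ i, ∀ h ∈ X, Sm V k (fun l => c (h + l) ≠ i) := by
  obtain ⟨V, hV, hVX⟩ := exists_farU h0 hX
  refine ⟨V, hV, ?_⟩
  obtain ⟨i, hi⟩ := hc
  refine ⟨i, fun h hh => ?_⟩
  refine Sm_mono ?_ (Sm_mem hV hVX (k := k) h)
  rintro l ⟨G, g1, g2, g3, rfl⟩
  have h4 : h ∉ G := fun h' => absurd (g3 h h') (lt_irrefl _)
  have e := Finset.sum_insert (f := fun x : ℕ => x) h4
  rw [← e]
  refine hi _ ?_ ?_
  · rw [Finset.coe_insert]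
    exact Set.insert_subset hh g1
  · rw [Finset.card_insert_of_notMem h4, g2]

end Pool.Agent.R575.TN
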