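import Pool.Agent.TH747.HS.MainK
import Pool.Agent.R575.TN.Comp

/-! A long chain inside a projection of the facts contradicts the diagonal colouring. -/

namespace Pool.Agent.R575.TN

open Encodable Filter Pool.Agent.H645R2.HT Pool.Agent.Helper446 Pool.Agent.Helper446.RE
open Pool.Agent.TH747.HS (FarU Sm Sm_exists Sm_and Sm_far Sm_finset exists_chain)
open Pool.Agent.H19R3.DNC (dl el c_dl c_el)

variable {D : ℕ → ℕ → Bool} {ψ : ℕ → Prop}

/-- The length of the chains which are necessary for requirement `r`. -/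
def ln (r : ℕ) : ℕ := (r * 3 ^ r + 1) * 3 ^ r

theorem el_encode {n : ℕ} {g : ℕ → ℕ} {i : ℕ} (hi : i < n) :
    el (encode ((List.range n).map g)) i = g i := by
  unfold el dl
  rw [encodek]
  simp [List.getElem?_range hi]

theorem no_chain {k : ℕ} (hk : 0 < k) {V : Ultrafilter ℕ} (hV : FarU V)
    (hlim : ∀ z, Sm V k (fun l => (D z l = true ↔ ψ z))) {Y : Set ℕ} (hp : 0 ∉ Y) {j : ℕ}
    (hc : ∀ h ∈ Y, Sm V k (fun l => col D (h + l) ≠ j)) {e r : ℕ} (hr : r = Nat.pair e (j + 1))
    (hsub : ∀ x, (∃ a, ψ (Nat.pair e (Nat.pair x a))) → x ∈ Y) (f : ℕ → ℕ)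
    (hf : ∀ i < ln r, ∃ a, ψ (Nat.pair e (Nat.pair (f i) a)))
    (hs : ∀ i, i + 1 < ln r → Sep (f i) (f (i + 1))) : False := by
  classical
  have hfY : ∀ i < ln r, f i ∈ Y := fun i hi => hsub _ (hf i hi)
  have hpos : ∀ x ∈ Y, 0 < x := fun x hx => Nat.pos_of_ne_zero fun h => hp (h ▸ hx)
  have hlt : ∀ j, ∀ i, i < j → j < ln r → mu (f i) < mu (f j) := by
    intro j
    induction j with
    | zero => intro i hi; omega
    | succ j ih =>
      intro i hi hj
      have h1 : mu (f j) < la (f (j + 1)) := hs j (by omega)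
      have h2 := la_le_mu (hpos _ (hfY (j + 1) hj))
      rcases Nat.lt_succ_iff_lt_or_eq.1 hi with h | h
      · have := ih i h (by omega)
        omega
      · rw [h]; omega
  have hinj : ∀ i < ln r, ∀ j < ln r, mu (f i) = mu (f j) → i = j := by
    intro i hi j hj hij
    rcases Nat.lt_trichotomy i j with h | h | h
    · have := hlt j i h hj; omega
    · exact h
    · have := hlt i j h hi; omega
  have hr1 : r.unpair.1 = e := by rw [hr, Nat.unpair_pair]
  have hr2 : r.unpair.2 = j + 1 := by rw [hr, Nat.unpair_pair]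
  have hn0 : 0 < nn r := by unfold nn; positivity
  have hnle := nn_le r
  -- positions of the blocks
  have hblk : ∀ b ≤ r * 3 ^ r, ∀ i < nn r, b * nn r + i < ln r := by
    intro b hb i hi
    have h1 : b * nn r + i < (b + 1) * nn r := by rw [add_mul, one_mul]; omega
    have h2 : (b + 1) * nn r ≤ (r * 3 ^ r + 1) * 3 ^ r :=
      Nat.mul_le_mul (by omega) hnle
    unfold ln
    omega
  choose! w hw using hf
  let cc : ℕ → ℕ := fun b => encode ((List.range (nn r)).map
    (fun i => Nat.pair (f (b * nn r + i)) (w (b * nn r + i))))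
  have hcc : ∀ b, ∀ i < nn r, el (cc b) i = Nat.pair (f (b * nn r + i)) (w (b * nn r + i)) :=
    fun b i hi => el_encode (g := fun i => Nat.pair (f (b * nn r + i)) (w (b * nn r + i))) hi
  have hcx : ∀ b, ∀ i < nn r, hx (cc b) i = f (b * nn r + i) := by
    intro b i hi
    unfold hx
    rw [hcc b i hi, Nat.unpair_pair]
  -- a bound for the codes
  obtain ⟨N, hN⟩ : ∃ N, (∀ b ≤ r * 3 ^ r, cc b ≤ N) ∧ ∀ i < ln r, mu (f i) ≤ N := by
    refine ⟨(Finset.range (r * 3 ^ r + 1)).sup cc + (Finset.range (ln r)).sup (fun i => mu (f i)),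
      fun b hb => ?_, fun i hi => ?_⟩
    · have h6 := Finset.le_sup (f := cc) (Finset.mem_range.2 (show b < r * 3 ^ r + 1 by omega))
      omega
    · have h6 := Finset.le_sup (f := fun i => mu (f i)) (Finset.mem_range.2 hi)
      omega
  -- a bound for the relevant facts
  obtain ⟨Z, hZ⟩ : ∃ Z, ∀ p ≤ N, ∀ i < nn r, Nat.pair e (el p i) < Z ∧ hx p i < Z := by
    refine ⟨(Finset.range (N + 1) ×ˢ Finset.range (nn r)).sup
      (fun x => max (Nat.pair e (el x.1 x.2)) (hx x.1 x.2)) + 1, fun p hp i hi => ?_⟩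
    have h5 : (p, i) ∈ Finset.range (N + 1) ×ˢ Finset.range (nn r) :=
      Finset.mem_product.2 ⟨Finset.mem_range.2 (Nat.lt_succ_of_le hp), Finset.mem_range.2 hi⟩
    have h6 := Finset.le_sup (f := fun x : ℕ × ℕ =>
      max (Nat.pair e (el x.1 x.2)) (hx x.1 x.2)) h5
    exact ⟨Nat.lt_succ_of_le (le_trans (le_max_left _ _) h6),
      Nat.lt_succ_of_le (le_trans (le_max_right _ _) h6)⟩
  obtain ⟨l, ⟨⟨hl0, hl1⟩, hl2⟩, hl3⟩ := Sm_exists (Sm_and (Sm_and (Sm_far hV hk (max N r))
    (Sm_finset (Finset.range Z) (P := fun z l => (D z l = true ↔ ψ z)) fun z _ => hlim z))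
    (Sm_finset ((Finset.range Z).filter (· ∈ Y))
      (P := fun h l => col D (h + l) ≠ j) fun h hh => hc h (Finset.mem_filter.1 hh).2))
  have hl4 : ∀ h < Z, h ∈ Y → col D (h + l) ≠ j := fun h hh hY =>
    hl3 h (Finset.mem_filter.2 ⟨Finset.mem_range.2 hh, hY⟩)
  have hD1 : ∀ p ≤ N, ∀ i < nn r, (D (Nat.pair e (el p i)) l = true ↔
      ψ (Nat.pair e (el p i))) := fun p hp i hi =>
    hl2 _ (Finset.mem_range.2 (hZ p hp i hi).1)
  -- some candidate of the chain is available
  obtain ⟨b, hb, hbt⟩ : ∃ b ≤ r * 3 ^ r, ∀ i < nn r, mu (f (b * nn r + i)) ∉ TT D l r := by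
    by_contra hcon
    push Not at hcon
    choose! t ht1 ht2 using hcon
    have h5 : (Finset.range (r * 3 ^ r + 1)).image (fun b => mu (f (b * nn r + t b))) ⊆
        (TT D l r).toFinset := by
      intro y hy
      obtain ⟨b, hb, rfl⟩ := Finset.mem_image.1 hy
      rw [List.mem_toFinset]
      exact ht2 b (by have := Finset.mem_range.1 hb; omega)
    have h6 := Finset.card_le_card h5
    rw [Finset.card_image_of_injOn, Finset.card_range] at h6
    · have h7 := List.toFinset_card_le (TT D l r)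
      have h8 := TT_length (D := D) (l := l) (r := r)
      omega
    · intro b hb b' hb' hij
      have hb1 : b ≤ r * 3 ^ r := by have := Finset.mem_range.1 (Finset.mem_coe.1 hb); omega
      have hb2 : b' ≤ r * 3 ^ r := by have := Finset.mem_range.1 (Finset.mem_coe.1 hb'); omega
      have h3 := hinj _ (hblk b hb1 _ (ht1 b hb1)) _ (hblk b' hb2 _ (ht1 b' hb2)) hij
      have e1 : (b * nn r + t b) / nn r = b := by
        rw [Nat.add_comm, Nat.add_mul_div_right _ _ hn0, Nat.div_eq_of_lt (ht1 b hb1), Nat.zero_add]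
      have e2 : (b' * nn r + t b') / nn r = b' := by
        rw [Nat.add_comm, Nat.add_mul_div_right _ _ hn0, Nat.div_eq_of_lt (ht1 b' hb2),
          Nat.zero_add]
      rw [← e1, h3, e2]
  have htst : tst D r l (TT D l r) (cc b) = true := by
    rw [tst_iff]
    intro i hi
    rw [hr1]
    refine ⟨?_, ?_, ?_, ?_, ?_⟩
    · rw [hD1 (cc b) (hN.1 b hb) i hi, hcc b i hi]
      exact hw _ (hblk b hb i hi)
    · rw [hcx b i hi]
      exact hpos _ (hfY _ (hblk b hb i hi))
    · rw [hcx b i hi]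
      have := hN.2 _ (hblk b hb i hi)
      omega
    · rcases Nat.eq_zero_or_pos i with h0 | h0
      · exact Or.inl h0
      · right
        rw [hcx b i hi, hcx b (i - 1) (by omega)]
        have h1 := hblk b hb i hi
        have h2 := hs (b * nn r + (i - 1)) (by omega)
        have h3 : b * nn r + (i - 1) + 1 = b * nn r + i := by omega
        rw [h3] at h2
        exact h2
    · rw [hcx b i hi]
      exact hbt i hi
  obtain ⟨h3, h4, -⟩ := lst_lt_of (q := tst D r l (TT D l r)) (n := la l) (i := cc b)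
    (by have := hN.1 b hb; omega) htst
  change pick D l r ≤ cc b at h3
  change pick D l r < la l at h4
  obtain ⟨i, hi, hij⟩ := col_hits hl0 (show r < la l by omega) h4 (j := j) (by omega)
  have ht := (tst_iff.1 (pick_tst h4) i hi).1
  have hpN : pick D l r ≤ N := le_trans h3 (hN.1 b hb)
  rw [hr1, hD1 _ hpN i hi] at ht
  have hY' : hx (pick D l r) i ∈ Y := by
    refine hsub _ ⟨(el (pick D l r) i).unpair.2, ?_⟩
    unfold hx
    rw [Nat.pair_unpair]
    exact ht
  exact hl4 _ (hZ _ hpN i hi).2 hY' hij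

/-- The set of sums is not a projection of `ψ`. -/
theorem no_solution {k : ℕ} (hk : 0 < k) {V : Ultrafilter ℕ} (hV : FarU V)
    (hlim : ∀ z, Sm V k (fun l => (D z l = true ↔ ψ z))) {Y : Set ℕ} (hp : 0 ∉ Y)
    (hY : ∀ N, ∃ x ∈ Y, 3 ^ N ∣ x)
    (hc : ∃ j, ∀ h ∈ Y, Sm V k (fun l => col D (h + l) ≠ j)) (e : ℕ)
    (hYe : ∀ x, x ∈ Y ↔ ∃ a, ψ (Nat.pair e (Nat.pair x a))) : False := by
  obtain ⟨f, hf1, hf2⟩ := exists_chain hp hY
  obtain ⟨j, hj⟩ := hc
  exact no_chain hk hV hlim hp hj rfl (fun x hx => (hYe x).2 hx) f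
    (fun i _ => (hYe _).1 (hf1 i)) (fun i _ => hf2 i)

end Pool.Agent.R575.TN
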